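import Pool.Agent.H76.GU.Targets

/-!
Row THS of the board gu: the theta series in Siegel coordinates.
-/

set_option autoImplicit false

namespace Pool.Agent.H96.GU

open Pool.Agent.H34.GM Pool.Agent.H34.GZ Pool.Agent.H34.GU Pool.Agent.H76.GU

/-- the sum of the inverse squares -/
private noncomputable def K2 : ℝ := ∑' t : ℕ, 1 / ((t : ℝ) + 1) ^ 2

private theorem summ : Summable fun t : ℕ => 1 / ((t : ℝ) + 1) ^ 2 := by
  have h := (summable_nat_add_iff 1).2 (Real.summable_one_div_nat_pow.2 (by norm_num : 1 < 2))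
  refine h.congr fun t => ?_
  push_cast
  rfl

private theorem K2_pos : 0 < K2 := by
  refine summ.tsum_pos (fun t => by positivity) 0 (by norm_num)

private theorem rowN_nonneg {m : ℕ} (v : Fin m → ℝ) : 0 ≤ rowN v := Real.sqrt_nonneg _

private theorem rowN_le {m : ℕ} (v : Fin m → ℝ) (B : ℝ) (hv : ∀ j, |v j| ≤ B) :
    rowN v ≤ m * B := by
  rcases Nat.eq_zero_or_pos m with rfl | hm
  · simp [rowN]
  have hB : 0 ≤ B := (abs_nonneg _).trans (hv ⟨0, hm⟩)
  have h1 : (1 : ℝ) ≤ m := by exact_mod_cast hm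
  refine Real.sqrt_le_iff.2 ⟨by positivity, ?_⟩
  have h2 : ∑ j, v j ^ 2 ≤ ∑ _j : Fin m, B ^ 2 := Finset.sum_le_sum fun j _ => by
    rw [← sq_abs]
    exact pow_le_pow_left₀ (abs_nonneg _) (hv j) 2
  rw [Finset.sum_const, Finset.card_univ, Fintype.card_fin, nsmul_eq_mul] at h2
  refine h2.trans ?_
  rw [mul_pow]
  refine mul_le_mul_of_nonneg_right ?_ (sq_nonneg B)
  nlinarith

private theorem prod_step {m : ℕ} (a' : Fin m → ℝ) (ha : ∀ j, 0 < a' j) (A : ℝ) (hA : 0 < A)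
    (t : ℕ) : (((t : ℝ) + 1)⁻¹) ^ (m + 2) * ∏ j, (1 + 2 * (((t : ℝ) + 1) * A) / a' j) ≤
      1 / ((t : ℝ) + 1) ^ 2 * ∏ j, (1 + 2 * A / a' j) := by
  have ht : (0 : ℝ) < (t : ℝ) + 1 := by positivity
  have ht1 : (1 : ℝ) ≤ (t : ℝ) + 1 := by
    have : (0 : ℝ) ≤ t := Nat.cast_nonneg t
    linarith
  have h1 : ∏ j, (1 + 2 * (((t : ℝ) + 1) * A) / a' j) ≤
      ∏ j : Fin m, (((t : ℝ) + 1) * (1 + 2 * A / a' j)) := by
    refine Finset.prod_le_prod (fun j _ => ?_) fun j _ => ?_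
    · have := ha j
      positivity
    · have h2 : 2 * (((t : ℝ) + 1) * A) / a' j = ((t : ℝ) + 1) * (2 * A / a' j) := by ring
      rw [h2, mul_add, mul_one]
      linarith
  rw [Finset.prod_mul_distrib, Finset.prod_const, Finset.card_univ, Fintype.card_fin] at h1
  have h3 : (((t : ℝ) + 1)⁻¹) ^ (m + 2) * ((t : ℝ) + 1) ^ m = 1 / ((t : ℝ) + 1) ^ 2 := by
    rw [pow_add, mul_assoc, mul_comm ((((t : ℝ) + 1)⁻¹) ^ 2), ← mul_assoc, ← mul_pow,
      inv_mul_cancel₀ ht.ne', one_pow, one_mul, inv_pow, one_div]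
  calc (((t : ℝ) + 1)⁻¹) ^ (m + 2) * ∏ j, (1 + 2 * (((t : ℝ) + 1) * A) / a' j)
      ≤ (((t : ℝ) + 1)⁻¹) ^ (m + 2) * (((t : ℝ) + 1) ^ m * ∏ j, (1 + 2 * A / a' j)) :=
        mul_le_mul_of_nonneg_left h1 (by positivity)
    _ = 1 / ((t : ℝ) + 1) ^ 2 * ∏ j, (1 + 2 * A / a' j) := by rw [← mul_assoc, h3]

private theorem row_sum (hCNT : T_CNT) {m : ℕ} (h n' : Mat m) (a' : Fin m → ℝ) (k' : Mat m)
    (hS : Sgl h n' a' k') (A : ℝ) (hA : 0 < A) :
    ∑' c : Fin m → ℤ, ENNReal.ofReal (((1 + rowN (vb c h) / A)⁻¹) ^ (m + 2)) ≤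
      ENNReal.ofReal (K2 * ∏ j, (1 + 2 * A / a' j)) := by
  classical
  have hP : 0 ≤ ∏ j, (1 + 2 * A / a' j) := Finset.prod_nonneg fun j _ => by
    have := hS.pos j
    positivity
  have h1 : ∀ c : Fin m → ℤ, ENNReal.ofReal (((1 + rowN (vb c h) / A)⁻¹) ^ (m + 2)) ≤
      ∑' t : ℕ, if rowN (vb c h) ≤ ((t : ℝ) + 1) * A then
        ENNReal.ofReal ((((t : ℝ) + 1)⁻¹) ^ (m + 2)) else 0 := by
    intro c
    have hr : 0 ≤ rowN (vb c h) / A := div_nonneg (rowN_nonneg _) hA.le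
    have hf := Nat.floor_le hr
    have hl := Nat.lt_floor_add_one (rowN (vb c h) / A)
    refine le_trans ?_ (ENNReal.le_tsum ⌊rowN (vb c h) / A⌋₊)
    rw [if_pos ((div_le_iff₀ hA).1 hl.le)]
    refine ENNReal.ofReal_le_ofReal (pow_le_pow_left₀ (by positivity) ?_ _)
    refine inv_anti₀ (by positivity) ?_
    linarith
  have h2 : ∀ t : ℕ, ∑' c : Fin m → ℤ, (if rowN (vb c h) ≤ ((t : ℝ) + 1) * A then
        ENNReal.ofReal ((((t : ℝ) + 1)⁻¹) ^ (m + 2)) else 0) ≤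
      ENNReal.ofReal (1 / ((t : ℝ) + 1) ^ 2 * ∏ j, (1 + 2 * A / a' j)) := by
    intro t
    obtain ⟨hf, hc⟩ := (hCNT m h n' a' k' hS).1 (((t : ℝ) + 1) * A) (by positivity)
    rw [tsum_eq_sum (s := hf.toFinset) (fun c hc' => by
      rw [if_neg]
      intro h3
      exact hc' (by simpa using h3))]
    rw [Finset.sum_congr rfl (fun c hc' => if_pos (by simpa using hc')), Finset.sum_const,
      ← Set.ncard_eq_toFinset_card _ hf, nsmul_eq_mul, ← ENNReal.ofReal_natCast,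
      ← ENNReal.ofReal_mul (Nat.cast_nonneg _)]
    refine ENNReal.ofReal_le_ofReal ?_
    refine le_trans ?_ (prod_step a' hS.pos A hA t)
    rw [mul_comm]
    exact mul_le_mul_of_nonneg_left hc (by positivity)
  calc ∑' c : Fin m → ℤ, ENNReal.ofReal (((1 + rowN (vb c h) / A)⁻¹) ^ (m + 2))
      ≤ ∑' (c : Fin m → ℤ) (t : ℕ), (if rowN (vb c h) ≤ ((t : ℝ) + 1) * A then
        ENNReal.ofReal ((((t : ℝ) + 1)⁻¹) ^ (m + 2)) else 0) := ENNReal.tsum_le_tsum h1
    _ = ∑' (t : ℕ) (c : Fin m → ℤ), (if rowN (vb c h) ≤ ((t : ℝ) + 1) * A then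
        ENNReal.ofReal ((((t : ℝ) + 1)⁻¹) ^ (m + 2)) else 0) := ENNReal.tsum_comm
    _ ≤ ∑' t : ℕ, ENNReal.ofReal (1 / ((t : ℝ) + 1) ^ 2 * ∏ j, (1 + 2 * A / a' j)) :=
        ENNReal.tsum_le_tsum h2
    _ = ENNReal.ofReal (∑' t : ℕ, 1 / ((t : ℝ) + 1) ^ 2 * ∏ j, (1 + 2 * A / a' j)) := by
        rw [ENNReal.ofReal_tsum_of_nonneg (fun t => mul_nonneg (by positivity) hP)
          (summ.mul_right _)]
    _ = ENNReal.ofReal (K2 * ∏ j, (1 + 2 * A / a' j)) := by rw [tsum_mul_right]; rfl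

/-- a sum over the functions of a product is at most the product of the sums -/
private theorem tsum_pi_le {m : ℕ} {α : Type} (f : Fin m → α → ENNReal) :
    ∑' β : Fin m → α, ∏ i, f i (β i) ≤ ∏ i, ∑' c, f i c := by
  classical
  rw [ENNReal.tsum_eq_iSup_sum]
  refine iSup_le fun s => ?_
  calc ∑ β ∈ s, ∏ i, f i (β i)
      ≤ ∑ β ∈ Fintype.piFinset (fun i => s.image fun β => β i), ∏ i, f i (β i) := by
        refine Finset.sum_le_sum_of_subset fun β hβ => ?_
        rw [Fintype.mem_piFinset]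
        exact fun i => Finset.mem_image_of_mem (fun β : Fin m → α => β i) hβ
    _ = ∏ i, ∑ c ∈ s.image (fun β => β i), f i c := (Finset.prod_univ_sum _ _).symm
    _ ≤ ∏ i, ∑' c, f i c := Finset.prod_le_prod' fun i _ => ENNReal.sum_le_tsum _

private theorem entry_le {m : ℕ} (z : Mat m) (i j : Fin m) : |z i j| ≤ sz z := by
  let w : V m := fun i j => z i j
  have h1 : ‖w i‖ ≤ ‖w‖ := norm_le_pi_norm w i
  have h2 : ‖w i j‖ ≤ ‖w i‖ := norm_le_pi_norm (w i) j
  exact h2.trans h1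

private theorem entry_row {m : ℕ} (v : Fin m → ℝ) (j : Fin m) : |v j| ≤ rowN v := by
  rw [rowN, ← Real.sqrt_sq_eq_abs]
  exact Real.sqrt_le_sqrt (Finset.single_le_sum (f := fun i => v i ^ 2)
    (fun i _ => sq_nonneg _) (Finset.mem_univ j))

private theorem row_le (hCNT : T_CNT) {m : ℕ} (ρ : ℝ) (hρ : 0 < ρ) (g n : Mat m)
    (a : Fin m → ℝ) (k h : Mat m) (hg : Sgl g n a k) (h1 : 1 ≤ aN g)
    (h3 : 0 < aN h) (h4 : aN h < Real.exp 1) (β : ZM m) (i : Fin m) :
    rowN (vb (β i) h) ≤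
      (m : ℝ) ^ 3 * 2 ^ m * (ρ * Real.exp 1) * a i * sz (kk ρ g (cR β) h) := by
  obtain ⟨-, hrow, -, hdet⟩ := hCNT m g n a k hg
  have hd : g.det ≠ 0 := by
    intro h0
    rw [h0, abs_zero] at hdet
    have := Finset.prod_pos fun j (_ : j ∈ Finset.univ) => hg.pos j
    rw [← hdet] at this
    exact lt_irrefl _ this
  set S := sz (kk ρ g (cR β) h) with hS
  set c0 : ℝ := ρ⁻¹ * aN g / aN h with hc0
  have hc0p : 0 < c0 := by positivity
  have hc0i : c0⁻¹ ≤ ρ * Real.exp 1 := by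
    rw [hc0, inv_div, div_le_iff₀ (by positivity)]
    have h5 : ρ * Real.exp 1 * (ρ⁻¹ * aN g) = Real.exp 1 * aN g := by
      field_simp
    rw [h5]
    nlinarith [Real.exp_pos 1]
  have hS0 : 0 ≤ S := norm_nonneg _
  have hX : ∀ l j, |(g⁻¹ * cR β * h) l j| ≤ ρ * Real.exp 1 * S := by
    intro l j
    have h5 : |(kk ρ g (cR β) h) l j| ≤ S := entry_le _ l j
    have h6 : (kk ρ g (cR β) h) l j = c0 * (g⁻¹ * cR β * h) l j := by
      rw [kk, Matrix.smul_apply, smul_eq_mul]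
    rw [h6, abs_mul, abs_of_pos hc0p] at h5
    calc |(g⁻¹ * cR β * h) l j| = c0⁻¹ * (c0 * |(g⁻¹ * cR β * h) l j|) := by
          rw [← mul_assoc, inv_mul_cancel₀ hc0p.ne', one_mul]
      _ ≤ c0⁻¹ * S := mul_le_mul_of_nonneg_left h5 (by positivity)
      _ ≤ ρ * Real.exp 1 * S := mul_le_mul_of_nonneg_right hc0i hS0
  have hgx : g * (g⁻¹ * cR β * h) = cR β * h := by
    rw [← Matrix.mul_assoc, ← Matrix.mul_assoc, Matrix.mul_nonsing_inv g
      ((Matrix.isUnit_iff_isUnit_det g).1 ((Matrix.isUnit_iff_isUnit_det g).2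
        (isUnit_iff_ne_zero.2 hd))), Matrix.one_mul]
  have hv : vb (β i) h = fun j => (cR β * h) i j := by
    funext j
    rfl
  have hent : ∀ j, |(vb (β i) h) j| ≤ m * ((m : ℝ) * 2 ^ m * a i * (ρ * Real.exp 1 * S)) := by
    intro j
    rw [hv]
    show |(cR β * h) i j| ≤ _
    rw [← hgx, Matrix.mul_apply]
    refine (Finset.abs_sum_le_sum_abs _ _).trans ?_
    have h7 : ∑ l : Fin m, |g i l * (g⁻¹ * cR β * h) l j| ≤
        ∑ _l : Fin m, ((m : ℝ) * 2 ^ m * a i * (ρ * Real.exp 1 * S)) := by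
      refine Finset.sum_le_sum fun l _ => ?_
      rw [abs_mul]
      exact mul_le_mul ((entry_row (g i) l).trans (hrow i)) (hX l j) (abs_nonneg _)
        (mul_nonneg (by positivity) (hg.pos i).le)
    rw [Finset.sum_const, Finset.card_univ, Fintype.card_fin, nsmul_eq_mul] at h7
    exact h7
  refine (rowN_le _ _ hent).trans (le_of_eq ?_)
  ring

theorem pf_THS (hCNT : T_CNT) : T_THS := by
  intro m hm Ψ hΨ ρ hρ
  obtain ⟨C, hC, hdec⟩ := hΨ.dec (m * (m + 2))
  have hm0 : (0 : ℝ) < m := by exact_mod_cast hm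
  set c4 : ℝ := (m : ℝ) ^ 3 * 2 ^ m * (ρ * Real.exp 1) with hc4
  have hc4p : 0 < c4 := by positivity
  have hK := K2_pos
  refine ⟨(C + 1) * (K2 * (1 + 2 * c4) ^ m) ^ m, by positivity, ?_⟩
  intro g n a k h n' a' k' hg hh h1 h2 h3 h4
  have hh0 : 0 < aN h := by linarith
  have hpt : ∀ β : ZM m, ENNReal.ofReal ‖Ψ (kk ρ g (cR β) h)‖ ≤ ENNReal.ofReal (C + 1) *
      ∏ i, ENNReal.ofReal (((1 + rowN (vb (β i) h) / (c4 * a i))⁻¹) ^ (m + 2)) := by
    intro β
    rw [← ENNReal.ofReal_prod_of_nonneg (fun i _ => by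
      have := rowN_nonneg (vb (β i) h)
      have := hg.pos i
      positivity), ← ENNReal.ofReal_mul (by positivity)]
    refine ENNReal.ofReal_le_ofReal ((hdec _).trans ?_)
    set S := sz (kk ρ g (cR β) h) with hS
    have hS0 : 0 ≤ S := norm_nonneg _
    have h5 : (1 + S) ^ (-((m * (m + 2) : ℕ) : ℝ)) = ∏ _i : Fin m, ((1 + S)⁻¹) ^ (m + 2) := by
      rw [Finset.prod_const, Finset.card_univ, Fintype.card_fin, ← pow_mul,
        Real.rpow_neg (by positivity), Real.rpow_natCast, inv_pow, mul_comm m (m + 2)]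
    rw [h5]
    refine mul_le_mul (by linarith) ?_ (Finset.prod_nonneg fun i _ => by positivity)
      (by positivity)
    refine Finset.prod_le_prod (fun i _ => by positivity) fun i _ => ?_
    refine pow_le_pow_left₀ (by positivity) ?_ _
    have h6 := rowN_nonneg (vb (β i) h)
    have h7 := hg.pos i
    have h8 : rowN (vb (β i) h) / (c4 * a i) ≤ S := by
      rw [div_le_iff₀ (by positivity)]
      have := row_le hCNT ρ hρ g n a k h hg h1 hh0 h4 β i
      rw [← hS, ← hc4] at this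
      linarith
    exact inv_anti₀ (by positivity) (by linarith)
  calc ∑' β : ZM m, ENNReal.ofReal ‖Ψ (kk ρ g (cR β) h)‖
      ≤ ∑' β : ZM m, ENNReal.ofReal (C + 1) *
        ∏ i, ENNReal.ofReal (((1 + rowN (vb (β i) h) / (c4 * a i))⁻¹) ^ (m + 2)) :=
        ENNReal.tsum_le_tsum hpt
    _ = ENNReal.ofReal (C + 1) * ∑' β : Fin m → Fin m → ℤ,
        ∏ i, ENNReal.ofReal (((1 + rowN (vb (β i) h) / (c4 * a i))⁻¹) ^ (m + 2)) :=
        ENNReal.tsum_mul_left
    _ ≤ ENNReal.ofReal (C + 1) * ∏ i, ∑' c : Fin m → ℤ,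
        ENNReal.ofReal (((1 + rowN (vb c h) / (c4 * a i))⁻¹) ^ (m + 2)) := by
        gcongr
        exact tsum_pi_le fun i c =>
          ENNReal.ofReal (((1 + rowN (vb c h) / (c4 * a i))⁻¹) ^ (m + 2))
    _ ≤ ENNReal.ofReal (C + 1) *
        ∏ i, ENNReal.ofReal (K2 * ((1 + 2 * c4) ^ m * ∏ j, (1 + a i / a' j))) := by
        gcongr with i
        refine (row_sum hCNT h n' a' k' hh (c4 * a i) (mul_pos hc4p (hg.pos i))).trans ?_
        refine ENNReal.ofReal_le_ofReal (mul_le_mul_of_nonneg_left ?_ hK.le)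
        have h5 : (1 + 2 * c4) ^ m * ∏ j, (1 + a i / a' j) =
            ∏ j : Fin m, ((1 + 2 * c4) * (1 + a i / a' j)) := by
          rw [Finset.prod_mul_distrib, Finset.prod_const, Finset.card_univ, Fintype.card_fin]
        rw [h5]
        have h6 := hg.pos i
        refine Finset.prod_le_prod (fun j _ => ?_) fun j _ => ?_
        · have := hh.pos j
          positivity
        · have h7 := hh.pos j
          have h8 : 0 < a i / a' j := by positivity
          have h9 : 2 * (c4 * a i) / a' j = 2 * c4 * (a i / a' j) := by ring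
          rw [h9]
          nlinarith
    _ = ENNReal.ofReal ((C + 1) * (K2 * (1 + 2 * c4) ^ m) ^ m *
        ∏ i, ∏ j, (1 + a i / a' j)) := by
        have hP : ∀ i, 0 ≤ ∏ j, (1 + a i / a' j) := fun i => Finset.prod_nonneg fun j _ => by
          have := hg.pos i
          have := hh.pos j
          positivity
        rw [← ENNReal.ofReal_prod_of_nonneg (fun i _ => mul_nonneg hK.le
          (mul_nonneg (by positivity) (hP i))), ← ENNReal.ofReal_mul (by positivity)]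
        congr 1
        have h5 : ∀ i, K2 * ((1 + 2 * c4) ^ m * ∏ j, (1 + a i / a' j)) =
            (K2 * (1 + 2 * c4) ^ m) * ∏ j, (1 + a i / a' j) := fun i => by ring
        rw [Finset.prod_congr rfl fun i _ => h5 i, Finset.prod_mul_distrib, Finset.prod_const,
          Finset.card_univ, Fintype.card_fin]
        ring

end Pool.Agent.H96.GU
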