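import Pool.Agent.H28.GU.TargetsC

/-!
MP_c59857_nt, project GU, row DL: the algebra of the cube products.
-/

set_option autoImplicit false

namespace Pool.Agent.H96.GU

open Finset Pool.Agent.H28.GU

theorem prod_finset_succAbove {M : Type} [CommMonoid M] {d : ℕ} (i : Fin (d + 1))
    (f : Finset (Fin (d + 1)) → M) :
    ∏ B, f B = ∏ A : Finset (Fin d), f (A.map i.succAboveEmb) *
      f (insert i (A.map i.succAboveEmb)) := by
  classical
  have hi : i ∉ (univ : Finset (Fin d)).map i.succAboveEmb := by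
    rw [mem_map]
    rintro ⟨j, -, hj⟩
    exact Fin.succAbove_ne i j hj
  have h1 : (univ : Finset (Fin (d + 1))) = insert i (univ.map i.succAboveEmb) := by
    rw [Fin.univ_succAbove d i, cons_eq_insert]
  have h2 : ∀ g : Finset (Fin (d + 1)) → M,
      ∏ t ∈ ((univ : Finset (Fin d)).map i.succAboveEmb).powerset, g t =
        ∏ A : Finset (Fin d), g (A.map i.succAboveEmb) := by
    intro g
    have h3 : ((univ : Finset (Fin d)).map i.succAboveEmb).powerset =
        (univ : Finset (Finset (Fin d))).map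
          ⟨fun A => A.map i.succAboveEmb, map_injective i.succAboveEmb⟩ := by
      ext t
      rw [mem_powerset, subset_map_iff, mem_map]
      constructor
      · rintro ⟨A, -, hA⟩
        exact ⟨A, mem_univ _, hA.symm⟩
      · rintro ⟨A, -, hA⟩
        exact ⟨A, subset_univ _, hA.symm⟩
    rw [h3, prod_map]
    rfl
  rw [prod_mul_distrib, ← h2, ← h2 fun t => f (insert i t), ← prod_powerset_insert hi, ← h1,
    powerset_univ]

section

variable {G : Type} [AddCommGroup G]

theorem Dl_eq (d : ℕ) : ∀ (s : Fin d → G) (u : G → ℝ) (x : G),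
    Dl d s u x = ∏ A : Finset (Fin d), u (x + ∑ i ∈ A, s i) := by
  induction d with
  | zero =>
    intro s u x
    rw [Fintype.prod_unique]
    have h1 : (default : Finset (Fin 0)) = ∅ := Subsingleton.elim _ _
    rw [h1, sum_empty, add_zero]
    rfl
  | succ d ih =>
    intro s u x
    show Dl d (Fin.tail s) (fun x => u x * u (x + s 0)) x = _
    rw [ih, prod_finset_succAbove 0]
    refine prod_congr rfl fun A _ => ?_
    have h0 : (0 : Fin (d + 1)) ∉ A.map (Fin.succAboveEmb 0) := by
      rw [mem_map]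
      rintro ⟨j, -, hj⟩
      exact Fin.succAbove_ne 0 j hj
    have h1 : ∑ i ∈ A.map (Fin.succAboveEmb 0), s i = ∑ i ∈ A, Fin.tail s i := by
      rw [sum_map]
      rfl
    rw [sum_insert h0, h1]
    congr 2
    rw [add_assoc, add_comm (∑ i ∈ A, Fin.tail s i)]

theorem Dl_removeNth (d : ℕ) (s : Fin (d + 1) → G) (i : Fin (d + 1)) (u : G → ℝ) (x : G) :
    Dl (d + 1) s u x = Dl d (i.removeNth s) u x * Dl d (i.removeNth s) u (x + s i) := by
  rw [Dl_eq, Dl_eq, Dl_eq, prod_finset_succAbove i, prod_mul_distrib]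
  have h1 : ∀ A : Finset (Fin d), ∑ j ∈ A.map i.succAboveEmb, s j = ∑ j ∈ A, i.removeNth s j := by
    intro A
    rw [sum_map]
    rfl
  congr 1
  · exact prod_congr rfl fun A _ => by rw [h1]
  · refine prod_congr rfl fun A _ => ?_
    have h0 : i ∉ A.map i.succAboveEmb := by
      rw [mem_map]
      rintro ⟨j, -, hj⟩
      exact Fin.succAbove_ne i j hj
    rw [sum_insert h0, h1, add_assoc]

end

theorem pf_DL : T_DL := by
  refine ⟨fun G _ d s u x => Dl_eq d s u x, fun G _ d s i u x => Dl_removeNth d s i u x,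
    fun G _ d s u v x => ?_, fun G _ d s t u x => ?_, fun G _ d s u hu x => ?_⟩
  · rw [Dl_eq, Dl_eq, Dl_eq, prod_mul_distrib]
  · rw [Dl_eq, Dl_eq]
    exact prod_congr rfl fun A _ => by rw [add_right_comm]
  · rw [Dl_eq, abs_prod]
    exact prod_le_one (fun A _ => abs_nonneg _) fun A _ => hu _

end Pool.Agent.H96.GU
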